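import Pool.Agent.D0H67.TS.Stm
import Pool.Agent.D0H67.CX.Lift
import Pool.Agent.D0H67.SUB.Fin
import Pool.Agent.D0H65.CX.Fib
import Pool.Agent.D0H87.CX.Tay

/-! # Project TS, module 5 (FIBR) -/

set_option autoImplicit false
set_option linter.unusedSectionVars false

namespace Pool.Agent.D0H3.TS

open MvPolynomial Pool.Agent.W428.MOT Pool.Agent.TH192.MT Pool.Agent.TH192.DT
  Pool.Agent.D0H67.SUB Pool.Agent.D0H67.PM Pool.Agent.D0H67.SUB.Trn Pool.Agent.D0H67.CX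
  Pool.Agent.D0H67.TS Pool.Agent.D0H65.CX

/-- FIBR. -/
theorem fibr (hT : S_TAY) : S_FIBR := by
  intro σ τ _ _ _ f κ hκ p hdet N ρ _ Ψ hΨ hΨ0
  set pF : Pt ℂ σ := aP p with hpF
  have hBc : Constr ({pF} : Set (Pt ℂ σ)) := Fin.constr_pt pF
  have hBd : ∀ x ∈ ({pF} : Set (Pt ℂ σ)), (jac f κ x).det ≠ 0 := by
    intro x hx
    rw [Set.mem_singleton_iff] at hx
    have h0 : pF = fun i => algebraMap ℂ (AlgebraicClosure ℂ) (p i) := rfl
    rw [hx, h0, Loc.jac_det]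
    intro h1
    exact hdet (Loc.injA (by rw [h1, map_zero]))
  -- the set upstairs
  have hpush : ∀ q : τ × Fin (N + 1), IsPF (fun z : Pt ℂ (σ × Fin (N + 1)) => push f z q) :=
    fun q => isPF_coeff (f q.1) q.2
  have hLc : Constr {x : Pt ℂ (ρ ⊕ (σ × Fin (N + 1))) | jk (fun q => x (Sum.inr q)) 0 = pF ∧
      (Sum.elim (fun r => x (Sum.inl r)) (push f fun q => x (Sum.inr q)) :
        Pt ℂ (ρ ⊕ (τ × Fin (N + 1)))) ∈ Ψ} := by
    refine Constr.and ?_ (hΨ.preimage _ ?_)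
    · have h1 : {x : Pt ℂ (ρ ⊕ (σ × Fin (N + 1))) | jk (fun q => x (Sum.inr q)) 0 = pF} =
          {x | ∀ i, x (Sum.inr (i, 0)) = pF i} := by
        ext x
        rw [Set.mem_ofPred_eq, Set.mem_ofPred_eq, Lev.jk_zero, _root_.funext_iff]
      rw [h1]
      exact Constr.all fun i => Constr.eq (IsPF.coord _) (Base.pf_const _)
    · rintro (r | q)
      · exact IsPF.coord _
      · exact (hpush q).comp (fun x : Pt ℂ (ρ ⊕ (σ × Fin (N + 1))) => fun q => x (Sum.inr q))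
          fun t => IsPF.coord _
  refine ⟨hLc, ?_⟩
  intro R _ M v _
  -- the set downstairs
  obtain ⟨Ψ', hΨ'⟩ : ∃ Ψ' : Set (Pt ℂ (ρ ⊕ (σ ⊕ (τ × Fin N)))),
    Ψ' = {x | (Sum.elim (fun r => x (Sum.inl r)) (gl (vf f fun i => x (Sum.inr (Sum.inl i)))
      (fun q => x (Sum.inr (Sum.inr q)))) : Pt ℂ (ρ ⊕ (τ × Fin (N + 1)))) ∈ Ψ} := ⟨_, rfl⟩
  have hgl : ∀ q : τ × Fin (N + 1), IsPF (fun x : Pt ℂ (ρ ⊕ (σ ⊕ (τ × Fin N))) =>
      gl (vf f fun i => x (Sum.inr (Sum.inl i))) (fun q => x (Sum.inr (Sum.inr q))) q) := by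
    rintro ⟨i, k⟩
    refine Fin.cases ?_ (fun k => ?_) k
    · exact (IsPF.poly (f i)).comp (fun x : Pt ℂ (ρ ⊕ (σ ⊕ (τ × Fin N))) =>
        fun i => x (Sum.inr (Sum.inl i))) fun t => IsPF.coord _
    · exact IsPF.coord _
  have hΨ'c : Constr Ψ' := by
    rw [hΨ']
    refine hΨ.preimage _ ?_
    rintro (r | q)
    · exact IsPF.coord _
    · exact hgl q
  have hmain := fib_gen hT f κ hκ {pF} hBc hBd M N ρ Ψ' hΨ'c
  have hL' : {x : Pt ℂ (ρ ⊕ (σ × Fin (N + 1))) | jk (fun q => x (Sum.inr q)) 0 = pF ∧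
      (Sum.elim (fun r => x (Sum.inl r)) (push f fun q => x (Sum.inr q)) :
        Pt ℂ (ρ ⊕ (τ × Fin (N + 1)))) ∈ Ψ} = FS f {pF} N ρ Ψ' := by
    rw [hΨ']
    ext x
    rw [Set.mem_ofPred_eq, push_eq, Lev.jk_zero]
    exact Iff.rfl
  rw [hL', hmain]
  congr 1
  -- the isomorphism
  refine M.iso _ _ (constr_GS hBc N ρ hΨ'c) hΨ
    (fun x => Sum.elim (fun r => x (Sum.inl r)) (gl (vf f fun i => x (Sum.inr (Sum.inl i)))
      (fun q => x (Sum.inr (Sum.inr q)))))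
    (fun w => Sum.elim (fun r => w (Sum.inl r)) (Sum.elim pF
      (fun q => w (Sum.inr (q.1, q.2.succ)))))
    (regularOn_poly (fun i => ?_) _) (regularOn_poly (fun i => ?_) _) ?_ ?_ ?_ ?_
  · rcases i with r | q
    · exact IsPF.coord _
    · exact hgl q
  · rcases i with r | i | q
    · exact IsPF.coord _
    · exact Base.pf_const _
    · exact IsPF.coord _
  · intro x hx
    have h1 := hx.2
    rw [hΨ'] at h1
    exact h1
  · intro w hw
    have h0 := hΨ0 w hw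
    have h3 := gl_eta (fun q => w (Sum.inr q) : Pt ℂ (τ × Fin (N + 1)))
    have h4 : (fun i => w (Sum.inr (i, 0))) = vf f pF := by
      rw [← h0, Lev.jk_zero]
    refine ⟨rfl, ?_⟩
    rw [hΨ']
    show (Sum.elim (fun r => w (Sum.inl r)) (gl (vf f pF)
      (fun q => w (Sum.inr (q.1, q.2.succ)))) : Pt ℂ (ρ ⊕ (τ × Fin (N + 1)))) ∈ Ψ
    have h5 : (Sum.elim (fun r => w (Sum.inl r)) (gl (vf f pF)
      (fun q => w (Sum.inr (q.1, q.2.succ)))) : Pt ℂ (ρ ⊕ (τ × Fin (N + 1)))) = w := by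
      rw [← h4]
      funext s
      rcases s with r | q
      · rfl
      · exact congrFun h3 q
    rw [h5]
    exact hw
  · intro x hx
    have h1 : (fun i => x (Sum.inr (Sum.inl i))) = pF := hx.1
    funext s
    rcases s with r | i | q
    · rfl
    · exact (congrFun h1 i).symm
    · rfl
  · intro w hw
    have h0 := hΨ0 w hw
    have h3 := gl_eta (fun q => w (Sum.inr q) : Pt ℂ (τ × Fin (N + 1)))
    have h4 : (fun i => w (Sum.inr (i, 0))) = vf f pF := by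
      rw [← h0, Lev.jk_zero]
    funext s
    rcases s with r | q
    · rfl
    · show gl (vf f pF) (fun q => w (Sum.inr (q.1, q.2.succ))) q = w (Sum.inr q)
      rw [← h4]
      exact congrFun h3 q

/-- FIBR. -/
theorem t_FIBR : S_FIBR := fibr Pool.Agent.D0H87.CX.t_TAY

end Pool.Agent.D0H3.TS
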